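import Pool.Agent.Work.MP_223b32_FY.Interface2
import Pool.Agent.Work.MP_223b32_FY_helper4.ARI

/-!
Block ARI2 of the relative version of the project fixed finite field (MP_223b32_ag): two triples
of admissible degrees.
-/

namespace Pool.Agent.Work.FY

open Finset

namespace ARI2

theorem eventually_fact (C : ℕ) (hC : 0 < C) :
    ∃ n₀ : ℕ, ∀ n, n₀ ≤ n → C * 64 ^ n ≤ n.factorial := by
  have h := FloorSemiring.tendsto_pow_div_factorial_atTop (64 : ℝ)
  have hC' : (0 : ℝ) < C := by exact_mod_cast hC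
  have h2 := (h.eventually (gt_mem_nhds (show (0 : ℝ) < 1 / C by positivity)))
  obtain ⟨n₀, hn₀⟩ := Filter.eventually_atTop.1 h2
  refine ⟨n₀, fun n hn => ?_⟩
  have h3 := hn₀ n hn
  have hf : (0 : ℝ) < (n.factorial : ℝ) := by exact_mod_cast n.factorial_pos
  rw [div_lt_iff₀ hf, one_div, ← div_eq_inv_mul, lt_div_iff₀ hC'] at h3
  have h4 : (C : ℝ) * 64 ^ n ≤ (n.factorial : ℝ) := by linarith
  exact_mod_cast h4

/-- Admissible degrees with `v` in a given interval. -/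
theorem core (LEG : Stmt_LEG) : ∃ G : ℕ, 10000000 ≤ G ∧ ∀ g, G ≤ g →
    ∃ η : ℕ, (η = 1 ∨ η = 2) ∧ ∀ X : ℕ, g / 2000 ≤ X → 1000 * X ≤ 4 * g →
      ∃ v d₁ : ℕ, X ≤ v ∧ v < X + g / 40000 ∧ g = d₁ + η * (4 * v + 3) ∧
        Adm2 g (η * (2 * v + 2)) d₁ (η * (2 * v + 2)) (η * (2 * v + 1)) ∧
        g ≤ 1000 * (η * (2 * v + 2)) := by
  obtain ⟨n₀, hn₀⟩ := eventually_fact (2 * 80000 ^ 3) (by norm_num)
  refine ⟨40000 * (2 ^ n₀ * (n₀ + 1) + 1) + 10000000, by omega, fun g hg => ?_⟩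
  obtain ⟨η, hη, hpar⟩ : ∃ η : ℕ, (η = 1 ∨ η = 2) ∧ (η = 1 ∧ g % 2 = 0 ∨ η = 2 ∧ g % 2 = 1) := by
    rcases Nat.mod_two_eq_zero_or_one g with h | h
    · exact ⟨1, by simp, by simp [h]⟩
    · exact ⟨2, by simp, by simp [h]⟩
  refine ⟨η, hη, fun X hX1 hX2 => ?_⟩
  have hηg : η ≤ g := by omega
  set P := (g - η) * g * (g + η) with hP
  have hP0 : 0 < P := by
    rw [hP]
    have : 0 < g - η := by omega
    have : 0 < g := by omega
    positivity
  set S := P.primeFactors.erase 2 with hS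
  have hSp : ∀ p ∈ S, p.Prime := fun p hp =>
    Nat.prime_of_mem_primeFactors (Finset.mem_of_mem_erase hp)
  have hS2 : ∀ p ∈ S, p ≠ 2 := fun p hp => Finset.ne_of_mem_erase hp
  set ω := S.card with hω
  -- size of `ω`
  have hfac : ω.factorial ≤ 2 * g ^ 3 := by
    have h1 := ARI.fact_le_prod ω S rfl (fun p hp => (hSp p hp).pos)
    have h2 : ∏ p ∈ S, p ∣ P :=
      (Finset.prod_dvd_prod_of_subset S P.primeFactors (fun p => p)
        (Finset.erase_subset _ _)).trans (Nat.prod_primeFactors_dvd P)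
    have h3 := Nat.le_of_dvd hP0 h2
    have h4 : P ≤ g * g * (2 * g) := by
      rw [hP]
      exact Nat.mul_le_mul (Nat.mul_le_mul (Nat.sub_le _ _) le_rfl) (by omega)
    calc ω.factorial ≤ P := h1.trans h3
      _ ≤ _ := h4
      _ = 2 * g ^ 3 := by ring
  have hsize : 2 ^ ω * (ω + 1) < g / 40000 := by
    rcases le_or_gt n₀ ω with h | h
    · have h1 := hn₀ ω h
      have h2 : (80000 * 4 ^ ω) ^ 3 ≤ g ^ 3 := by
        have : (80000 * 4 ^ ω) ^ 3 = 80000 ^ 3 * 64 ^ ω := by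
          rw [mul_pow, ← pow_mul, mul_comm ω 3, pow_mul]; norm_num
        rw [this]
        rw [mul_assoc] at h1
        omega
      have h3 : 80000 * 4 ^ ω ≤ g := (Nat.pow_le_pow_iff_left (by norm_num)).1 h2
      have h4 : 2 ^ ω * (ω + 1) ≤ 4 ^ ω := by
        have : ω + 1 ≤ 2 ^ ω := Nat.lt_two_pow_self
        calc 2 ^ ω * (ω + 1) ≤ 2 ^ ω * 2 ^ ω := Nat.mul_le_mul le_rfl this
          _ = 4 ^ ω := by rw [← mul_pow]; norm_num
      have h5 : 0 < 4 ^ ω := by positivity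
      omega
    · have h1 : 2 ^ ω * (ω + 1) ≤ 2 ^ n₀ * (n₀ + 1) :=
        Nat.mul_le_mul (Nat.pow_le_pow_right (by norm_num) h.le) (by omega)
      omega
  obtain ⟨v, hv1, hv2, hv3⟩ := LEG S (ARI.Bad g η) hSp
    (by
      intro p hp
      by_cases h : ∃ v₀, ARI.Bad g η p v₀
      · obtain ⟨v₀, hv₀⟩ := h
        exact ⟨v₀, fun v hv => ARI.class_unique (hSp p hp) (hS2 p hp) hη hηg hv hv₀⟩
      · exact ⟨0, fun v hv => (h ⟨v, hv⟩).elim⟩) X (g / 40000) hsize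
  -- every odd prime is harmless
  have good : ∀ p : ℕ, p.Prime → p ≠ 2 → ¬ ARI.Bad g η p v := by
    intro p hp hp2 hbad
    have hpP : p ∣ P := by
      rcases hbad with ⟨a, _⟩ | ⟨a, _⟩ | ⟨a, _⟩
      · exact Dvd.dvd.mul_right (Dvd.dvd.mul_right a _) _
      · exact Dvd.dvd.mul_left a _
      · exact Dvd.dvd.mul_right (Dvd.dvd.mul_left a _) _
    exact hv3 p (Finset.mem_erase.2 ⟨hp2, Nat.mem_primeFactors.2 ⟨hp, hpP, hP0.ne'⟩⟩) hbad
  obtain ⟨d₁, hd₁⟩ : ∃ d₁, g = d₁ + η * (4 * v + 3) := by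
    refine ⟨g - η * (4 * v + 3), ?_⟩
    have : η * (4 * v + 3) ≤ g := by rcases hη with rfl | rfl <;> omega
    omega
  have hodd : d₁ % 2 = 1 := by rcases hpar with ⟨rfl, h⟩ | ⟨rfl, h⟩ <;> omega
  have hne2 : ∀ p : ℕ, p ∣ d₁ → p ≠ 2 := by
    rintro p hp rfl
    omega
  have hpη : ∀ p : ℕ, p.Prime → p ≠ 2 → ¬ p ∣ η := fun p hp h2 =>
    ARI.odd_not_dvd hp h2 (by tauto)
  have C3 : Nat.Coprime d₁ (η * (2 * v + 1)) := by
    by_contra hcon
    obtain ⟨p, hp, h1, h2⟩ := Nat.Prime.not_coprime_iff_dvd.1 hcon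
    have hp2 := hne2 p h1
    have h3 : p ∣ 2 * v + 1 := (hp.dvd_mul.1 h2).resolve_left (hpη p hp hp2)
    refine good p hp hp2 (Or.inl ⟨?_, h3⟩)
    have : g - η = d₁ + 2 * (η * (2 * v + 1)) := by
      have e : η * (4 * v + 3) = 2 * (η * (2 * v + 1)) + η := by ring
      omega
    rw [this]
    exact Nat.dvd_add h1 (Dvd.dvd.mul_left h2 _)
  have C2 : Nat.Coprime d₁ (η * (2 * v + 2)) := by
    by_contra hcon
    obtain ⟨p, hp, h1, h2⟩ := Nat.Prime.not_coprime_iff_dvd.1 hcon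
    have hp2 := hne2 p h1
    have h3 : p ∣ 2 * v + 2 := (hp.dvd_mul.1 h2).resolve_left (hpη p hp hp2)
    refine good p hp hp2 (Or.inr (Or.inl ⟨?_, h3⟩))
    have : g + η = d₁ + 2 * (η * (2 * v + 2)) := by
      have e : 2 * (η * (2 * v + 2)) = η * (4 * v + 3) + η := by ring
      omega
    rw [this]
    exact Nat.dvd_add h1 (Dvd.dvd.mul_left h2 _)
  have Cg : Nat.Coprime d₁ g := by
    by_contra hcon
    obtain ⟨p, hp, h1, h2⟩ := Nat.Prime.not_coprime_iff_dvd.1 hcon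
    have hp2 := hne2 p h1
    have h3 : p ∣ η * (4 * v + 3) := by
      rw [hd₁] at h2
      exact (Nat.dvd_add_right h1).1 h2
    exact good p hp hp2 (Or.inr (Or.inr ⟨h2, (hp.dvd_mul.1 h3).resolve_left (hpη p hp hp2)⟩))
  refine ⟨v, d₁, hv1, hv2, hd₁,
    ⟨⟨?_, ?_, ?_, ?_, le_rfl, ?_, ?_, ?_, C3, η, ?_, ?_, ?_⟩, C2, Cg, ?_⟩, ?_⟩
  · rw [hd₁]; ring
  · rcases hη with rfl | rfl <;> omega
  · rcases hη with rfl | rfl <;> omega
  · rcases hη with rfl | rfl <;> omega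
  · rcases hη with rfl | rfl <;> omega
  · rcases hη with rfl | rfl <;> omega
  · rcases hη with rfl | rfl <;> omega
  · rcases hη with rfl | rfl
    · exact ⟨v + 1, by ring⟩
    · exact ⟨v + 1, by ring⟩
  · rcases hη with rfl | rfl <;> omega
  · rcases hη with rfl | rfl <;> omega
  · rcases hη with rfl | rfl <;> omega
  · rcases hη with rfl | rfl <;> omega

/-- The least common multiple of the degrees. -/
theorem lcm_eq {g η v d₁ : ℕ}
    (h : Adm2 g (η * (2 * v + 2)) d₁ (η * (2 * v + 2)) (η * (2 * v + 1))) :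
    Nat.lcm d₁ (Nat.lcm (η * (2 * v + 2)) (η * (2 * v + 1))) =
      d₁ * (η * ((2 * v + 2) * (2 * v + 1))) := by
  obtain ⟨⟨_, _, _, _, _, _, _, _, C3, _⟩, C2, _, _⟩ := h
  have h1 : Nat.lcm (η * (2 * v + 2)) (η * (2 * v + 1)) = η * ((2 * v + 2) * (2 * v + 1)) := by
    rw [Nat.lcm_mul_left]
    congr 1
    apply Nat.Coprime.lcm_eq_mul
    have : Nat.Coprime (2 * v + 1 + 1) (2 * v + 1) := by simp
    exact this
  rw [h1]
  apply Nat.Coprime.lcm_eq_mul
  have h2 : η * ((2 * v + 2) * (2 * v + 1)) ∣ (η * (2 * v + 2)) * (η * (2 * v + 1)) :=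
    ⟨η, by ring⟩
  exact Nat.Coprime.coprime_dvd_right h2 (Nat.Coprime.mul_right C2 C3)

end ARI2

/-- ARI2 -/
theorem stmt_ARI2 : Stmt_LEG → Stmt_ARI2 := by
  intro LEG
  obtain ⟨G, hG, core⟩ := ARI2.core LEG
  refine ⟨G, fun g hg => ?_⟩
  obtain ⟨η, hη, hcore⟩ := core g hg
  obtain ⟨v, d₁, hv1, hv2, hd, hA, hk⟩ := hcore (g / 400) (by omega) (by omega)
  obtain ⟨w, e₁, hw1, hw2, he, hB, hl⟩ := hcore (g / 400 + g / 4000) (by omega) (by omega)
  refine ⟨_, _, _, _, _, _, _, _, hA, hB, hk, hl, ?_⟩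
  unfold Sepd
  rw [ARI2.lcm_eq hA, ARI2.lcm_eq hB]
  set m := d₁ * (η * ((2 * v + 2) * (2 * v + 1))) with hm
  set m' := e₁ * (η * ((2 * w + 2) * (2 * w + 1))) with hm'
  have hη0 : 0 < η := by omega
  have a1 : 107 * (2 * v + 1) ≤ 100 * (2 * w + 1) := by omega
  have a2 : 107 * (2 * v + 2) ≤ 100 * (2 * w + 2) := by omega
  have a3 : 97 * d₁ ≤ 100 * e₁ := by rcases hη with rfl | rfl <;> omega
  have b1 : 100 * (2 * w + 1) ≤ 115 * (2 * v + 1) := by omega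
  have b2 : 100 * (2 * w + 2) ≤ 115 * (2 * v + 2) := by omega
  have b3 : 97 * e₁ ≤ 100 * d₁ := by rcases hη with rfl | rfl <;> omega
  have hd0 : 0 < d₁ := by rcases hη with rfl | rfl <;> omega
  have hm0 : 0 < m := by rw [hm]; positivity
  have low : 1110553 * m ≤ 1000000 * m' := by
    have h := Nat.mul_le_mul a3 (Nat.mul_le_mul (le_refl η) (Nat.mul_le_mul a2 a1))
    have e1 : 97 * d₁ * (η * (107 * (2 * v + 2) * (107 * (2 * v + 1)))) = 1110553 * m := by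
      rw [hm]; ring
    have e2 : 100 * e₁ * (η * (100 * (2 * w + 2) * (100 * (2 * w + 1)))) = 1000000 * m' := by
      rw [hm']; ring
    rw [e1, e2] at h
    exact h
  have up : 970000 * m' ≤ 1322500 * m := by
    have h := Nat.mul_le_mul b3 (Nat.mul_le_mul (le_refl η) (Nat.mul_le_mul b2 b1))
    have e1 : 97 * e₁ * (η * (100 * (2 * w + 2) * (100 * (2 * w + 1)))) = 970000 * m' := by
      rw [hm']; ring
    have e2 : 100 * d₁ * (η * (115 * (2 * v + 2) * (115 * (2 * v + 1)))) = 1322500 * m := by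
      rw [hm]; ring
    rw [e1, e2] at h
    exact h
  have c1 : m < m' := by omega
  have c2 : 2 * m' < 3 * m := by omega
  constructor
  · -- `m ∣ 2 m'`
    rintro ⟨c, hc⟩
    have h1 : 2 < c := by
      by_contra hcon
      have : m * c ≤ m * 2 := Nat.mul_le_mul le_rfl (by omega)
      omega
    have : m * 3 ≤ m * c := Nat.mul_le_mul le_rfl h1
    omega
  · rintro ⟨c, hc⟩
    rcases Nat.lt_or_ge c 2 with h | h
    · have : m' * c ≤ m' * 1 := Nat.mul_le_mul le_rfl (by omega)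
      omega
    · have : m' * 2 ≤ m' * c := Nat.mul_le_mul le_rfl h
      omega

end Pool.Agent.Work.FY
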