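import Pool.Agent.Work.MP_223b32_FY.Interface2

/-!
Block PAIR of the relative version of the project fixed finite field (MP_223b32_ag): two
polynomials with different patterns at the same prime.
-/

namespace Pool.Agent.Work.FY

open Polynomial Finset

namespace PAIR

theorem pow_apply' {L : Type} [Field L] [NumberField L] (σ : Gal(L/ℚ)) (n : ℕ) (x : L) :
    (σ ^ n) x = (⇑σ)^[n] x := by
  induction n generalizing x with
  | zero => simp
  | succ n ih =>
    rw [pow_succ, Function.iterate_succ_apply, ← ih]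
    rfl

/-- A cycle of length `C.card`. -/
theorem cycle_fix {L : Type} [Field L] [NumberField L] (σ : Gal(L/ℚ)) (C : Finset L)
    (ht : ∀ x ∈ C, ∀ y ∈ C, ∃ n : ℕ, (σ ^ n) x = y) (hs : ∀ x ∈ C, σ x ∈ C) (x : L) (hx : x ∈ C)
    (n : ℕ) : (σ ^ n) x = x ↔ C.card ∣ n := by
  classical
  set f : L → L := ⇑σ with hf
  have hinj : Function.Injective f := σ.injective
  have hmem : ∀ n : ℕ, f^[n] x ∈ C := by
    intro n
    induction n with
    | zero => simpa using hx
    | succ n ih =>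
      rw [Function.iterate_succ_apply']
      exact hs _ ih
  -- the point is periodic
  have hper : x ∈ Function.periodicPts f := by
    have hnot : ¬ Function.Injective (fun n : ℕ => (⟨f^[n] x, hmem n⟩ : C)) := by
      intro hcon
      exact not_injective_infinite_finite _ hcon
    simp only [Function.Injective, not_forall] at hnot
    obtain ⟨a, b, hab, hne⟩ := hnot
    have hab' : f^[a] x = f^[b] x := congrArg Subtype.val hab
    have aux : ∀ a b : ℕ, a < b → f^[a] x = f^[b] x → x ∈ Function.periodicPts f := by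
      intro a b hlt h
      refine ⟨b - a, by omega, ?_⟩
      have : f^[a] (f^[b - a] x) = f^[a] x := by
        rw [← Function.iterate_add_apply, h]
        congr 1
        rw [Nat.add_sub_cancel' hlt.le]
      exact hinj.iterate a this
    rcases lt_or_gt_of_ne hne with h | h
    · exact aux a b h hab'
    · exact aux b a h hab'.symm
  set p := Function.minimalPeriod f x with hp
  have hp0 : 0 < p := Function.minimalPeriod_pos_of_mem_periodicPts hper
  have himg : (range p).image (fun n => f^[n] x) = C := by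
    ext y
    rw [Finset.mem_image]
    constructor
    · rintro ⟨n, _, rfl⟩
      exact hmem n
    · intro hy
      obtain ⟨n, hn⟩ := ht x hx y hy
      refine ⟨n % p, Finset.mem_range.2 (Nat.mod_lt _ hp0), ?_⟩
      rw [pow_apply'] at hn
      rw [← hn]
      exact Function.iterate_mod_minimalPeriod_eq
  have hcard : C.card = p := by
    rw [← himg, Finset.card_image_of_injOn, Finset.card_range]
    intro a ha b hb hab
    have ha' : a < p := Finset.mem_range.1 (Finset.mem_coe.1 ha)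
    have hb' : b < p := Finset.mem_range.1 (Finset.mem_coe.1 hb)
    have key : ∀ a b : ℕ, a < p → b < p → a < b → f^[a] x = f^[b] x → False := by
      intro a b _ hb hlt h
      have h2 : f^[a] (f^[b - a] x) = f^[a] x := by
        rw [← Function.iterate_add_apply, h]
        congr 1
        rw [Nat.add_sub_cancel' hlt.le]
      have h3 : f^[b - a] x = x := hinj.iterate a h2
      have h4 : p ∣ b - a := Function.isPeriodicPt_iff_minimalPeriod_dvd.1 h3
      have h5 := Nat.le_of_dvd (by omega) h4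
      omega
    rcases Nat.lt_trichotomy a b with h | h | h
    · exact (key a b ha' hb' h hab).elim
    · exact h
    · exact (key b a hb' ha' h hab.symm).elim
  rw [pow_apply', hcard]
  exact Function.isPeriodicPt_iff_minimalPeriod_dvd

theorem half (FROBJ : Stmt_FROBJ) (L : Type) [Field L] [NumberField L] [IsGalois ℚ L] (ℓ : ℕ)
    [Fact ℓ.Prime] (hℓ : ℓ ≠ 2) :
    ∃ σ : Gal(L/ℚ), ∀ (q g k d₁ d₂ d₃ k' e₁ e₂ e₃ : ℕ) (h h' : ℤ[X]), q ≠ 0 →
    (q : ZMod ℓ) ≠ 0 → FF.Adm g k d₁ d₂ d₃ →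
    FF.Adm g k' e₁ e₂ e₃ → h.Monic → h.natDegree = g → h'.Monic → h'.natDegree = g →
    (h.map (Int.castRingHom L)).Splits → (h'.map (Int.castRingHom L)).Splits →
    FF.Pattern q ℓ d₁ d₂ d₃ (h.map (Int.castRingHom (ZMod ℓ))) →
    FF.Pattern q ℓ e₁ e₂ e₃ (h'.map (Int.castRingHom (ZMod ℓ))) →
    Sepd d₁ d₂ d₃ e₁ e₂ e₃ → ApartIn L q h h' := by
  obtain ⟨σ, hσ⟩ := FROBJ L ℓ hℓ
  refine ⟨σ, ?_⟩
  intro q g k d₁ d₂ d₃ k' e₁ e₂ e₃ h h' hq hqℓ hA hB hm hg hm' hg' hs hs' hP hP' hsep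
  obtain ⟨C₁, C₂, C₃, hC, _, _, _, c1, c2, c3, t1, t2, t3, s1, s2, s3⟩ :=
    hσ q g k d₁ d₂ d₃ h hqℓ hA hm hg hs hP
  obtain ⟨E₁, E₂, E₃, hE, _, _, _, x1, x2, x3, u1, u2, u3, v1, v2, v3⟩ :=
    hσ q g k' e₁ e₂ e₃ h' hqℓ hB hm' hg' hs' hP'
  set m := Nat.lcm e₁ (Nat.lcm e₂ e₃) with hmdef
  have hqL : (q : L) ≠ 0 := by exact_mod_cast hq
  -- `σ ^ m` fixes the roots of `h'`
  have hfix : ∀ x : L, aeval x h' = 0 → (σ ^ m) x = x := by
    intro x hx
    rcases (hE x).1 hx with hx | hx | hx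
    · exact (cycle_fix σ E₁ u1 v1 x hx m).2 (by rw [x1]; exact Nat.dvd_lcm_left _ _)
    · exact (cycle_fix σ E₂ u2 v2 x hx m).2
        (by rw [x2]; exact (Nat.dvd_lcm_left _ _).trans (Nat.dvd_lcm_right _ _))
    · exact (cycle_fix σ E₃ u3 v3 x hx m).2
        (by rw [x3]; exact (Nat.dvd_lcm_right _ _).trans (Nat.dvd_lcm_right _ _))
  refine ⟨σ ^ (2 * m), ?_, ?_⟩
  · intro y hy hroot
    have h1 := hfix _ hroot
    rw [map_add, map_div₀, map_natCast] at h1
    have hy' : (σ ^ m) y ≠ 0 := (_root_.map_ne_zero (σ ^ m)).2 hy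
    have h2 : (σ ^ (2 * m)) y = (σ ^ m) ((σ ^ m) y) := by
      rw [two_mul, pow_add]
      rfl
    rw [h2]
    rcases FF.GALAux.two_sol y ((σ ^ m) y) hy hy' h1 with h3 | h3
    · rw [h3, h3]
    · rw [h3, map_div₀, map_natCast, h3]
      field_simp
  · by_contra hcon
    push Not at hcon
    apply hsep
    obtain ⟨_, hd2, hd3, _, hk, _, _, hk1, _⟩ := hA
    have n1 : C₁.Nonempty := Finset.card_pos.1 (by omega)
    have n2 : C₂.Nonempty := Finset.card_pos.1 (by omega)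
    have n3 : C₃.Nonempty := Finset.card_pos.1 (by omega)
    obtain ⟨y1, hy1⟩ := n1
    obtain ⟨y2, hy2⟩ := n2
    obtain ⟨y3, hy3⟩ := n3
    have r1 := (cycle_fix σ C₁ t1 s1 y1 hy1 (2 * m)).1 (hcon y1 ((hC y1).2 (Or.inl hy1)))
    have r2 := (cycle_fix σ C₂ t2 s2 y2 hy2 (2 * m)).1 (hcon y2 ((hC y2).2 (Or.inr (Or.inl hy2))))
    have r3 := (cycle_fix σ C₃ t3 s3 y3 hy3 (2 * m)).1 (hcon y3 ((hC y3).2 (Or.inr (Or.inr hy3))))
    rw [c1] at r1
    rw [c2] at r2
    rw [c3] at r3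
    exact Nat.lcm_dvd r1 (Nat.lcm_dvd r2 r3)

end PAIR

/-- PAIR -/
theorem stmt_PAIR : Stmt_FROBJ → Stmt_PAIR := by
  intro FROBJ L _ _ _ q ℓ g k d₁ d₂ d₃ k' e₁ e₂ e₃ _ h h' hq hℓ hqℓ hA hB hm hg hm' hg' hs hs'
    hP hP'
  obtain ⟨σ, hσ⟩ := PAIR.half FROBJ L ℓ hℓ
  exact ⟨hσ q g k d₁ d₂ d₃ k' e₁ e₂ e₃ h h' hq hqℓ hA hB hm hg hm' hg' hs hs' hP hP',
    hσ q g k' e₁ e₂ e₃ k d₁ d₂ d₃ h' h hq hqℓ hB hA hm' hg' hm hg hs' hs hP' hP⟩

end Pool.Agent.Work.FY
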